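import Mathlib

set_option autoImplicit false

/-! MP_332e42_an, Q1: the T-strong open set condition fails for one-point digit sets when the
matrix is twice the identity, in every dimension. -/

open Set MeasureTheory Filter
open scoped Pointwise Topology

namespace Pool.Agent.Results.MP_332e42_an.OnePoint

/-- an integer vector seen as a real vector -/
def re {d : ℕ} (v : Fin d → ℤ) : Fin d → ℝ := fun i => (v i : ℝ)

/-- every (complex) eigenvalue of `R` has modulus larger than one -/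
def Expansive {d : ℕ} (R : Matrix (Fin d) (Fin d) ℤ) : Prop :=
  ∀ (μ : ℂ) (v : Fin d → ℂ), v ≠ 0 →
    (R.map (fun n : ℤ => (n : ℂ))).mulVec v = μ • v → 1 < ‖μ‖

/-- congruence modulo the lattice `R ℤ^d` -/
def Cong {d : ℕ} (R : Matrix (Fin d) (Fin d) ℤ) (v w : Fin d → ℤ) : Prop :=
  ∃ z : Fin d → ℤ, v - w = R.mulVec z

/-- simple digit sets: no two distinct elements are congruent modulo `R ℤ^d` -/
def SimpleDigits {d : ℕ} (R : Matrix (Fin d) (Fin d) ℤ) (B : Set (Fin d → ℤ)) : Prop :=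
  ∀ b ∈ B, ∀ b' ∈ B, Cong R b b' → b = b'

/-- complete sets of representatives modulo `R ℤ^d` -/
def CompleteReps {d : ℕ} (R : Matrix (Fin d) (Fin d) ℤ) (D : Set (Fin d → ℤ)) : Prop :=
  ∀ v : Fin d → ℤ, ∃! e : Fin d → ℤ, e ∈ D ∧ Cong R v e

/-- the map `x ↦ R⁻¹ (x + b)` -/
noncomputable def tau {d : ℕ} (R : Matrix (Fin d) (Fin d) ℤ) (b : Fin d → ℤ)
    (x : Fin d → ℝ) : Fin d → ℝ :=
  ((R.map (fun n : ℤ => (n : ℝ)))⁻¹).mulVec (x + re b)

/-- `T` is the attractor `T(R, B)`: a nonempty compact set with `T = ⋃ τ_b (T)` -/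
def IsAttractor {d : ℕ} (R : Matrix (Fin d) (Fin d) ℤ) (B : Set (Fin d → ℤ))
    (T : Set (Fin d → ℝ)) : Prop :=
  T.Nonempty ∧ IsCompact T ∧ T = ⋃ b ∈ B, tau R b '' T

/-- the T-strong open set condition -/
def TSOSC {d : ℕ} (R : Matrix (Fin d) (Fin d) ℤ) (B : Set (Fin d → ℤ)) : Prop :=
  ∃ D : Set (Fin d → ℤ), CompleteReps R D ∧ B ⊆ D ∧
    ∃ T TB : Set (Fin d → ℝ), IsAttractor R D T ∧ IsAttractor R B TB ∧
      (TB ∩ interior T).Nonempty

/-- twice the identity matrix -/
def two (d : ℕ) : Matrix (Fin d) (Fin d) ℤ := (2 : ℤ) • (1 : Matrix (Fin d) (Fin d) ℤ)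

lemma two_mulVec (d : ℕ) (z : Fin d → ℤ) : (two d).mulVec z = (2 : ℤ) • z := by
  simp [two]

lemma two_apply (d : ℕ) (i j : Fin d) : two d i j = if i = j then 2 else 0 := by
  unfold two
  rw [Matrix.smul_apply, Matrix.one_apply]
  split_ifs <;> simp

lemma tau_two {d : ℕ} (b : Fin d → ℤ) (x : Fin d → ℝ) :
    tau (two d) b x = (1 / 2 : ℝ) • (x + re b) := by
  have h : ((two d).map (fun n : ℤ => (n : ℝ)))⁻¹ = (1 / 2 : ℝ) • (1 : Matrix (Fin d) (Fin d) ℝ) := by
    apply Matrix.inv_eq_right_inv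
    have : (two d).map (fun n : ℤ => (n : ℝ)) = (2 : ℝ) • (1 : Matrix (Fin d) (Fin d) ℝ) := by
      ext i j
      rw [Matrix.map_apply, two_apply, Matrix.smul_apply, Matrix.one_apply]
      split_ifs <;> simp
    rw [this, Matrix.smul_mul, Matrix.one_mul, smul_smul]
    norm_num
  unfold tau
  rw [h]
  simp [Matrix.smul_mulVec]

lemma expansive_two (d : ℕ) : Expansive (two d) := by
  intro μ v hv h
  have h2 : (two d).map (fun n : ℤ => (n : ℂ)) = (2 : ℂ) • (1 : Matrix (Fin d) (Fin d) ℂ) := by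
    ext i j
    rw [Matrix.map_apply, two_apply, Matrix.smul_apply, Matrix.one_apply]
    split_ifs <;> simp
  rw [h2, Matrix.smul_mulVec, Matrix.one_mulVec] at h
  have h3 : (2 - μ) • v = 0 := by rw [sub_smul, h, sub_self]
  rcases smul_eq_zero.mp h3 with h4 | h4
  · have : μ = 2 := by linear_combination -h4
    rw [this]; norm_num
  · exact absurd h4 hv

lemma simple_singleton {d : ℕ} (R : Matrix (Fin d) (Fin d) ℤ) (b : Fin d → ℤ) :
    SimpleDigits R {b} := by
  intro x hx y hy _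
  rw [mem_singleton_iff] at hx hy
  rw [hx, hy]

lemma att_single {d : ℕ} (b : Fin d → ℤ) (TB : Set (Fin d → ℝ))
    (h : IsAttractor (two d) {b} TB) : ∀ x ∈ TB, x = re b := by
  obtain ⟨hne, hc, he⟩ := h
  obtain ⟨m, hm, hmax⟩ := hc.exists_isMaxOn hne
    (f := fun x => ‖x - re b‖) (by fun_prop)
  have hm2 := hm
  rw [he] at hm2
  simp only [mem_singleton_iff, iUnion_iUnion_eq_left, mem_image] at hm2
  obtain ⟨y, hy, hym⟩ := hm2
  rw [tau_two] at hym
  have h1 : m - re b = (1 / 2 : ℝ) • (y - re b) := by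
    rw [← hym]; module
  have h2 : ‖m - re b‖ = 1 / 2 * ‖y - re b‖ := by
    rw [h1, norm_smul]; norm_num
  have h3 : ‖y - re b‖ ≤ ‖m - re b‖ := hmax hy
  have h4 : ‖m - re b‖ = 0 := by
    have := norm_nonneg (m - re b)
    linarith
  intro x hx
  have h5 : ‖x - re b‖ ≤ ‖m - re b‖ := hmax hx
  have h6 : ‖x - re b‖ = 0 := le_antisymm (h4 ▸ h5) (norm_nonneg _)
  exact sub_eq_zero.mp (norm_eq_zero.mp h6)

/-- reduction modulo two -/
def red {d : ℕ} (v : Fin d → ℤ) : Fin d → ZMod 2 := fun i => (v i : ZMod 2)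

lemma red_inj {d : ℕ} (D : Set (Fin d → ℤ)) (hD : CompleteReps (two d) D) :
    InjOn red D := by
  intro e he e' he' h
  have h1 : Cong (two d) e e' := by
    have : ∀ i, ∃ z : ℤ, e i - e' i = 2 * z := by
      intro i
      have h2 : ((e i : ℤ) : ZMod 2) = ((e' i : ℤ) : ZMod 2) := congrFun h i
      have h3 : ((e i - e' i : ℤ) : ZMod 2) = 0 := by push_cast; rw [h2, sub_self]
      have h4 := (ZMod.intCast_zmod_eq_zero_iff_dvd (e i - e' i) 2).mp h3
      obtain ⟨z, hz⟩ := h4
      exact ⟨z, by simpa using hz⟩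
    choose z hz using this
    refine ⟨z, ?_⟩
    rw [two_mulVec]
    funext i
    simp [hz i]
  have h2 : Cong (two d) e e := ⟨0, by simp⟩
  exact (hD e).unique ⟨he, h2⟩ ⟨he', h1⟩

lemma not_interior {d : ℕ} (hd : 1 ≤ d) (b : Fin d → ℤ) (D : Set (Fin d → ℤ))
    (hD : CompleteReps (two d) D) (hb : b ∈ D) (T : Set (Fin d → ℝ))
    (hT : IsAttractor (two d) D T) : re b ∉ interior T := by
  intro hbT
  obtain ⟨hne, hc, he⟩ := hT
  have hsub : ∀ e ∈ D, ∀ x ∈ T, (1 / 2 : ℝ) • (x + re e) ∈ T := by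
    intro e heD x hx
    rw [he]
    simp only [mem_iUnion, mem_image]
    exact ⟨e, heD, x, hx, tau_two e x⟩
  have hsup : ∀ x ∈ T, ∃ e ∈ D, ∃ y ∈ T, (2 : ℝ) • x = y + re e := by
    intro x hx
    rw [he] at hx
    simp only [mem_iUnion, mem_image] at hx
    obtain ⟨e, heD, y, hy, hxy⟩ := hx
    refine ⟨e, heD, y, hy, ?_⟩
    rw [← hxy, tau_two]; module
  -- a digit different from b
  obtain ⟨e, heD, hne'⟩ : ∃ e ∈ D, e ≠ b := by
    obtain ⟨e, ⟨heD, z, hz⟩, -⟩ := hD (b + Pi.single ⟨0, hd⟩ 1)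
    refine ⟨e, heD, ?_⟩
    rintro rfl
    rw [two_mulVec] at hz
    have := congrFun hz ⟨0, hd⟩
    simp at this
    omega
  set O := interior T with hO
  have hOo : IsOpen O := isOpen_interior
  have hOT : O ⊆ T := interior_subset
  -- the sets near e
  let g : ℕ → (Fin d → ℝ) → (Fin d → ℝ) := fun n x => re e + ((1 / 2 : ℝ) ^ n) • (x - re e)
  have hgT : ∀ n, ∀ x ∈ T, g n x ∈ T := by
    intro n
    induction n with
    | zero => intro x hx; simpa [g] using hx
    | succ n ih =>
      intro x hx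
      have h1 := hsub e heD _ (ih x hx)
      have h2 : g (n + 1) x = (1 / 2 : ℝ) • (g n x + re e) := by
        simp only [g, pow_succ]; module
      rw [h2]; exact h1
  have hlim : Tendsto (fun n => g n (re b) + re b - re e) atTop (𝓝 (re b)) := by
    have h1 : Tendsto (fun n : ℕ => ((1 / 2 : ℝ) ^ n)) atTop (𝓝 0) :=
      tendsto_pow_atTop_nhds_zero_of_lt_one (by norm_num) (by norm_num)
    have h2 : Tendsto (fun n : ℕ => ((1 / 2 : ℝ) ^ n) • (re b - re e) + re b) atTop
        (𝓝 ((0 : ℝ) • (re b - re e) + re b)) := (h1.smul_const _).add_const _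
    rw [zero_smul, zero_add] at h2
    refine h2.congr ?_
    intro n
    simp only [g]; abel
  obtain ⟨n, hn⟩ := ((hlim.eventually (hOo.mem_nhds hbT)).exists)
  -- the common open set
  let U : Set (Fin d → ℝ) := {y | y - re e ∈ O} ∩ {y | re e + ((2 : ℝ) ^ n) • (y - re b - re e) ∈ O}
  have hUo : IsOpen U := by
    apply IsOpen.inter
    · exact hOo.preimage (by fun_prop)
    · exact hOo.preimage (by fun_prop)
  have hUne : (g n (re b) + re b) ∈ U := by
    refine ⟨hn, ?_⟩
    have : re e + ((2 : ℝ) ^ n) • (g n (re b) + re b - re b - re e) = re b := by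
      simp only [g]
      have h3 : re e + (1 / 2 : ℝ) ^ n • (re b - re e) + re b - re b - re e
          = (1 / 2 : ℝ) ^ n • (re b - re e) := by abel
      rw [h3, smul_smul, ← mul_pow]
      norm_num
    show re e + ((2 : ℝ) ^ n) • (g n (re b) + re b - re b - re e) ∈ O
    rw [this]; exact hbT
  let S : (Fin d → ℤ) → Set (Fin d → ℝ) := fun e' => (fun x => x + (-re e')) ⁻¹' T
  have hUe : U ⊆ S e := by
    intro y hy
    have := hOT hy.1
    simpa [S, sub_eq_add_neg] using this
  have hUb : U ⊆ S b := by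
    intro y hy
    have h1 := hgT n _ (hOT hy.2)
    have h2 : g n (re e + ((2 : ℝ) ^ n) • (y - re b - re e)) = y + (-re b) := by
      simp only [g]
      rw [add_sub_cancel_left, smul_smul, ← mul_pow]
      norm_num
      abel
    show y + (-re b) ∈ T
    rw [← h2]; exact h1
  -- counting
  have hfin : D.Finite := Set.Finite.of_injOn (f := red) (t := univ) (fun _ _ => mem_univ _)
    (red_inj D hD) finite_univ
  let F := hfin.toFinset
  have hF : ∀ x, x ∈ F ↔ x ∈ D := fun x => hfin.mem_toFinset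
  have hcard : F.card ≤ 2 ^ d := by
    have h1 : F.card ≤ (Finset.univ : Finset (Fin d → ZMod 2)).card :=
      Finset.card_le_card_of_injOn red (fun _ _ => Finset.mem_coe.mpr (Finset.mem_univ _))
        (by
          intro x hx y hy hxy
          exact red_inj D hD ((hF x).mp hx) ((hF y).mp hy) hxy)
    have h2 : (Finset.univ : Finset (Fin d → ZMod 2)).card = 2 ^ d := by
      rw [Finset.card_univ, Fintype.card_fun, ZMod.card, Fintype.card_fin]
    omega
  have hcov : (2 : ℝ) • T ⊆ (⋃ e' ∈ F.erase e, S e') ∪ (S e \ U) := by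
    rintro y ⟨x, hx, rfl⟩
    obtain ⟨e', he'D, t, ht, hxt⟩ := hsup x hx
    have hmem : (2 : ℝ) • x ∈ S e' := by
      show (2 : ℝ) • x + (-re e') ∈ T
      rw [hxt]; simpa using ht
    by_cases h1 : e' = e
    · by_cases h2 : (2 : ℝ) • x ∈ U
      · left
        simp only [mem_iUnion]
        exact ⟨b, Finset.mem_erase.mpr ⟨fun h => hne' h.symm, (hF b).mpr hb⟩, hUb h2⟩
      · right
        exact ⟨h1 ▸ hmem, h2⟩
    · left
      simp only [mem_iUnion]
      exact ⟨e', Finset.mem_erase.mpr ⟨h1, (hF e').mpr he'D⟩, hmem⟩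
  have hvS : ∀ e', volume (S e') = volume T := fun e' => measure_preimage_add_right _ _ _
  have hTfin : volume T ≠ ⊤ := hc.measure_lt_top.ne
  have hUpos : 0 < volume U := hUo.measure_pos volume ⟨_, hUne⟩
  have hUle : volume U ≤ volume T := by
    rw [← hvS e]; exact measure_mono hUe
  have hUfin : volume U ≠ ⊤ := ne_top_of_le_ne_top hTfin hUle
  have hscale : volume ((2 : ℝ) • T) = (2 : ENNReal) ^ d * volume T := by
    rw [Measure.addHaar_smul]
    congr 1
    rw [Module.finrank_fin_fun, abs_of_pos (by positivity), ENNReal.ofReal_pow (by norm_num)]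
    norm_num
  have hub : (2 : ENNReal) ^ d * volume T
      ≤ ((F.erase e).card : ENNReal) * volume T + (volume T - volume U) := by
    rw [← hscale]
    calc volume ((2 : ℝ) • T) ≤ volume ((⋃ e' ∈ F.erase e, S e') ∪ (S e \ U)) := measure_mono hcov
      _ ≤ volume (⋃ e' ∈ F.erase e, S e') + volume (S e \ U) := measure_union_le _ _
      _ ≤ (∑ e' ∈ F.erase e, volume (S e')) + volume (S e \ U) := by
          gcongr
          exact measure_biUnion_finset_le _ _
      _ = ((F.erase e).card : ENNReal) * volume T + (volume T - volume U) := by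
          rw [measure_sdiff hUe hUo.nullMeasurableSet hUfin, hvS e]
          simp only [hvS, Finset.sum_const, nsmul_eq_mul]
  have hce : (F.erase e).card + 1 ≤ 2 ^ d := by
    rw [Finset.card_erase_of_mem ((hF e).mpr heD)]
    have : 0 < F.card := Finset.card_pos.mpr ⟨e, (hF e).mpr heD⟩
    omega
  -- real numbers
  have hr := ENNReal.toReal_mono (by finiteness) hub
  rw [ENNReal.toReal_add (by finiteness) (by finiteness), ENNReal.toReal_mul, ENNReal.toReal_mul,
    ENNReal.toReal_sub_of_le hUle hTfin, ENNReal.toReal_pow, ENNReal.toReal_natCast] at hr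
  have hup : 0 < (volume U).toReal := ENNReal.toReal_pos hUpos.ne' hUfin
  have htp : 0 ≤ (volume T).toReal := ENNReal.toReal_nonneg
  have hce' : (((F.erase e).card : ℝ) + 1) ≤ 2 ^ d := by exact_mod_cast hce
  have h2 : (ENNReal.toReal 2) = 2 := by norm_num
  rw [h2] at hr
  nlinarith [mul_le_mul_of_nonneg_right hce' htp]

/-- Main result. First part: the negated form of the question. Second part: for every dimension
`d ≥ 1`, twice the identity is expansive and every one-point digit set fails the T-SOSC. -/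
theorem result :
    (∃ (d : ℕ) (R : Matrix (Fin d) (Fin d) ℤ) (B : Set (Fin d → ℤ)), 1 ≤ d ∧ Expansive R ∧
      B.Finite ∧ B.Nonempty ∧ SimpleDigits R B ∧ ¬ TSOSC R B) ∧
    (∀ d : ℕ, 1 ≤ d → Expansive (two d) ∧
      ∀ b : Fin d → ℤ, SimpleDigits (two d) {b} ∧ ¬ TSOSC (two d) {b}) := by
  have key : ∀ d : ℕ, 1 ≤ d → Expansive (two d) ∧
      ∀ b : Fin d → ℤ, SimpleDigits (two d) {b} ∧ ¬ TSOSC (two d) {b} := by
    intro d hd
    refine ⟨expansive_two d, fun b => ⟨simple_singleton _ b, ?_⟩⟩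
    rintro ⟨D, hD, hBD, T, TB, hT, hTB, x, hxB, hxT⟩
    have hx : x = re b := att_single b TB hTB x hxB
    rw [hx] at hxT
    exact not_interior hd b D hD (hBD (mem_singleton b)) T hT hxT
  exact ⟨⟨1, two 1, {0}, le_rfl, (key 1 le_rfl).1, finite_singleton _, singleton_nonempty _,
    ((key 1 le_rfl).2 0).1, ((key 1 le_rfl).2 0).2⟩, key⟩

end Pool.Agent.Results.MP_332e42_an.OnePoint
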